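import Pool.Agent.Lib.MP_9cc147_pr.Cx.Rg.Kit
import Pool.Agent.Lib.MP_9cc147_pr.Cx.F.Kit

/-! Differences of the extracted constants of two states. -/

open scoped Classical Topology
open Finset MeasureTheory ProbabilityTheory Filter

noncomputable section
namespace Pool.Agent.Lib.MP_9cc147_pr.Cx

theorem kee_H_le {q : Par} {Cu C0 ε0 : ℝ} (E : q.Env Cu C0 ε0) : q.H Cu ≤ q.C := by
  have h1 := E.g_ge
  have h2 := E.H1
  have h3 := E.g8
  have h4 := E.g8C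
  have h5 : (1 : ℝ) ≤ c0 * (q.L : ℝ) ^ 2 :=
    one_le_mul_of_one_le_of_one_le (by norm_num [c0]) (one_le_pow₀ E.L1')
  have h6 : q.g Cu ≤ q.g Cu ^ 8 := le_self_pow₀ (by linarith) (by norm_num)
  nlinarith

theorem k_ee (h_env : S_rg_env) (h_sz : S_rg_sz) (h_dif : S_rg_dif) (h_qz : S_rg_qz) : S_ee := by
  filter_upwards [h_env] with q ⟨Cu, C0, ε0, E⟩
  intro t0 j x y α ν ρ ν' ρ' s δ hx hy hδ
  refine ⟨fun h => (h_sz q Cu C0 ε0 t0 j x y α ν ρ ν' ρ' s δ E hx hy hδ h).2.1,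
    fun b z B hB hb hz h => ?_⟩
  obtain ⟨-, hd, -⟩ := h_dif q Cu C0 ε0 t0 j x y α ν ρ ν' ρ' s δ b E hx hy hδ hb.pred B hB h
  obtain ⟨d1, d2⟩ := hd z hz
  obtain ⟨q1, q2, -⟩ := h_qz q Cu C0 ε0 b j z E hb.pred B hB
  have hH := kee_H_le E
  have hκ : 0 < 1 / q.κ := one_div_pos.2 E.hκ.1
  have hCu := E.hCu
  have hh := sq_nonneg q.h
  have c1 : 1 / q.κ ≤ q.C := by unfold Par.H at hH; linarith
  have c2 : Cu ≤ q.C := by unfold Par.H at hH; linarith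
  have c3 : 1 ≤ q.C := hCu.trans c2
  have nrm : ∀ (a a' : ℝ) (w : ℂ) (r : ℝ), ‖w‖ ≤ r → r ≤ q.C →
      ‖(a / 2 : ℂ) * w - (a' / 2 : ℂ) * w‖ ≤ q.C * |a - a'| := fun a a' w r h1 h2 => by
    have e : (a / 2 : ℂ) * w - (a' / 2 : ℂ) * w = ((a - a' : ℝ) : ℂ) * w / 2 := by
      push_cast
      ring
    rw [e, norm_div, norm_mul, Complex.norm_real, Real.norm_eq_abs, Complex.norm_ofNat]
    nlinarith [abs_nonneg (a - a'), norm_nonneg w]
  constructor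
  · have e : q.e j x b z s B - q.e j y b z s B =
        ((x.lam s / 2 : ℂ) * q.Ez b j (fun Θ => En Θ (cell (q.l j) B)) 0 -
          (y.lam s / 2 : ℂ) * q.Ez b j (fun Θ => En Θ (cell (q.l j) B)) 0) -
        q.eK b j z (Par.dK x y b s z) B := by
      rw [d1]
      unfold Par.e Par.ee
      ring
    rw [e]
    refine (norm_sub_le _ _).trans ?_
    have := nrm (x.lam s) (y.lam s) _ _ q2 c1
    nlinarith
  · unfold Par.xt
    split_ifs with hc
    · exact nrm _ _ _ _ ((q1 (hz.trans hx.t.2) 0 fun _ _ _ => rfl).2 hc.2).1 c2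
    · rw [sub_zero, norm_zero]
      positivity

end Pool.Agent.Lib.MP_9cc147_pr.Cx
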