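import Pool.Agent.Lib.MP_9cc147_pr.Cx.D1

/-! Thin strips: sums over thin outer zones of a union of blocks. -/

open scoped Classical
open Finset

noncomputable section
namespace Pool.Agent.Lib.MP_9cc147_pr.Cx

theorem k_ray1 (f : P → ℂ) (e x : P) (D t : ℕ) (ht : t ≤ D) :
    ‖f x‖ ^ 2 ≤ 2 * ‖f (x + t • e)‖ ^ 2 +
      2 * D * ∑ r ∈ range D, ‖f (x + r • e + e) - f (x + r • e)‖ ^ 2 := by
  have h1 : f (x + t • e) - f x = ∑ r ∈ range t, (f (x + r • e + e) - f (x + r • e)) := by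
    have := Finset.sum_range_sub (fun r : ℕ => f (x + r • e)) t
    simp only [zero_smul, add_zero] at this
    rw [← this]
    refine sum_congr rfl fun r _ => ?_
    rw [succ_nsmul, add_assoc]
  set T := ∑ r ∈ range D, ‖f (x + r • e + e) - f (x + r • e)‖ with hT
  have h2 : ‖f (x + t • e) - f x‖ ≤ T := by
    rw [h1]
    refine (norm_sum_le _ _).trans ?_
    exact sum_le_sum_of_subset_of_nonneg (range_mono ht) fun _ _ _ => norm_nonneg _
  have h3 : T ^ 2 ≤ D * ∑ r ∈ range D, ‖f (x + r • e + e) - f (x + r • e)‖ ^ 2 := by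
    have := sq_sum_le_card_mul_sum_sq (s := range D)
      (f := fun r => ‖f (x + r • e + e) - f (x + r • e)‖)
    rwa [card_range] at this
  have h4 : ‖f x‖ ≤ ‖f (x + t • e)‖ + T := by
    have : f x = f (x + t • e) - (f (x + t • e) - f x) := by ring
    calc ‖f x‖ = ‖f (x + t • e) - (f (x + t • e) - f x)‖ := by rw [← this]
      _ ≤ _ := (norm_sub_le _ _).trans (by linarith)
  have h5 : ‖f x‖ ^ 2 ≤ (‖f (x + t • e)‖ + T) ^ 2 := pow_le_pow_left₀ (norm_nonneg _) h4 2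
  nlinarith [sq_nonneg (‖f (x + t • e)‖ - T)]

theorem k_shift (g : P → ℝ) (hg : ∀ y, 0 ≤ g y) (o : P) (Z W : Finset P)
    (h : ∀ y ∈ Z, y + o ∈ W) : ∑ y ∈ Z, g (y + o) ≤ ∑ y ∈ W, g y := by
  rw [← sum_image (s := Z) (g := fun y => y + o) (f := g)
    fun a _ b _ h => add_right_cancel h]
  refine sum_le_sum_of_subset_of_nonneg (fun y hy => ?_) fun _ _ _ => hg _
  obtain ⟨x, hx, rfl⟩ := mem_image.1 hy
  exact h x hx

theorem k_dbl (g : P → ℝ) (hg : ∀ y, 0 ≤ g y) (e : P) (S Z : Finset P) (D k : ℕ)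
    (hZ : ∀ x ∈ S, ∀ t < D, x + t • e ∈ Z)
    (hk : ∀ y, ((range D).filter fun t => y - t • e ∈ S).card ≤ k) :
    ∑ x ∈ S, ∑ t ∈ range D, g (x + t • e) ≤ k * ∑ y ∈ Z, g y := by
  rw [sum_comm]
  have h1 : ∀ t ∈ range D, ∑ x ∈ S, g (x + t • e) ≤
      ∑ y ∈ Z, if y - t • e ∈ S then g y else 0 := by
    intro t ht
    rw [← sum_filter]
    refine k_shift g hg _ _ _ fun y hy => mem_filter.2 ⟨hZ y hy t (mem_range.1 ht), ?_⟩
    simpa using hy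
  refine (sum_le_sum h1).trans ?_
  rw [sum_comm, mul_sum]
  refine sum_le_sum fun y _ => ?_
  rw [← sum_filter, sum_const, nsmul_eq_mul]
  exact mul_le_mul_of_nonneg_right (by exact_mod_cast hk y) (hg y)

theorem k_ray (f : P → ℂ) (e : P) (S Z : Finset P) (D k : ℕ) (hD : 0 < D)
    (hZ : ∀ x ∈ S, ∀ t < D, x + t • e ∈ Z)
    (hk : ∀ y, ((range D).filter fun t => y - t • e ∈ S).card ≤ k) :
    ∑ x ∈ S, ‖f x‖ ^ 2 ≤ 2 * k / D * ∑ y ∈ Z, ‖f y‖ ^ 2 +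
      2 * k * D * ∑ y ∈ Z, ‖f (y + e) - f y‖ ^ 2 := by
  have hD' : (0 : ℝ) < D := by exact_mod_cast hD
  have h1 := k_dbl (fun y => ‖f y‖ ^ 2) (fun _ => by positivity) e S Z D k hZ hk
  have h2 := k_dbl (fun y => ‖f (y + e) - f y‖ ^ 2) (fun _ => by positivity) e S Z D k hZ hk
  have h3 : ∀ x ∈ S, D * ‖f x‖ ^ 2 ≤ 2 * ∑ t ∈ range D, ‖f (x + t • e)‖ ^ 2 +
      2 * D * D * ∑ r ∈ range D, ‖f (x + r • e + e) - f (x + r • e)‖ ^ 2 := by
    intro x _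
    have := sum_le_sum fun t (ht : t ∈ range D) => k_ray1 f e x D t (mem_range.1 ht).le
    rw [sum_const, sum_add_distrib, sum_const, ← mul_sum, card_range, nsmul_eq_mul,
      nsmul_eq_mul] at this
    linarith
  have h4 := sum_le_sum h3
  simp only [sum_add_distrib, ← mul_sum] at h4 h1 h2
  rw [← mul_le_mul_iff_right₀ hD']
  have h5 : (0 : ℝ) ≤ 2 * D * D := by positivity
  have h6 := mul_le_mul_of_nonneg_left h2 h5
  have h7 : D * (2 * k / D * ∑ y ∈ Z, ‖f y‖ ^ 2 + 2 * k * D * ∑ y ∈ Z, ‖f (y + e) - f y‖ ^ 2) =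
      2 * (k * ∑ y ∈ Z, ‖f y‖ ^ 2) + 2 * D * D * (k * ∑ y ∈ Z, ‖f (y + e) - f y‖ ^ 2) := by
    field_simp
  rw [h7]
  linarith

theorem k_div {l a x : ℤ} (hl : 0 < l) (h1 : a * l ≤ x) (h2 : x < (a + 1) * l) : x / l = a := by
  have := (Int.le_ediv_iff_mul_le hl).2 h1
  have := (Int.ediv_lt_iff_lt_mul hl).2 h2
  omega

theorem k_mem_cell {l : ℕ} {B x : P} : x ∈ cell l B ↔
    (B.1 * l ≤ x.1 ∧ x.1 < (B.1 + 1) * l) ∧ B.2 * l ≤ x.2 ∧ x.2 < (B.2 + 1) * l := by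
  simp [cell, mem_product]

theorem k_mem_fat {l w : ℕ} {B x : P} : x ∈ fat l w B ↔
    (B.1 * l - w ≤ x.1 ∧ x.1 ≤ (B.1 + 1) * l + w) ∧ B.2 * l - w ≤ x.2 ∧ x.2 ≤ (B.2 + 1) * l + w := by
  simp only [fat, mem_product, mem_Icc]

theorem k_cell_par {l : ℕ} (hl : 0 < l) {B x : P} : x ∈ cell l B ↔ par l x = B := by
  have hl' : (0 : ℤ) < l := by exact_mod_cast hl
  rw [k_mem_cell]
  constructor
  · rintro ⟨⟨h1, h2⟩, h3, h4⟩
    exact Prod.ext (k_div hl' h1 h2) (k_div hl' h3 h4)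
  · rintro rfl
    exact ⟨⟨Int.ediv_mul_le _ hl'.ne', Int.lt_ediv_add_one_mul_self _ hl'⟩,
      Int.ediv_mul_le _ hl'.ne', Int.lt_ediv_add_one_mul_self _ hl'⟩

theorem k_under_par {l : ℕ} (hl : 0 < l) {S : Finset P} {x : P} :
    x ∈ under l S ↔ par l x ∈ S := by
  simp only [under, mem_biUnion, k_cell_par hl]
  exact ⟨fun ⟨B, hB, h⟩ => h ▸ hB, fun h => ⟨_, h, rfl⟩⟩

/-- the points outside the blocks of `S` within distance `w` of their closed squares -/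
def oz (l w : ℕ) (S : Finset P) : Finset P := S.biUnion (fat l w) \ under l S
/-- residue condition for the first layers in direction `d` -/
def rsd (l w : ℕ) (d : Fin 4) (x : P) : Prop :=
  ![x.1 % l ≤ w, x.2 % l ≤ w, (l : ℤ) - w ≤ x.1 % l, (l : ℤ) - w ≤ x.2 % l] d

theorem k_mod {l a x : ℤ} (hl : 0 < l) (h1 : a * l ≤ x) (h2 : x < (a + 1) * l) :
    x % l = x - a * l := by
  have := Int.emod_add_ediv_mul x l
  rw [k_div hl h1 h2] at this
  linarith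

theorem k_oz_dir {l w D r : ℕ} {S : Finset P} (h : w + D ≤ r) (hr : r < l) {x : P}
    (hx : x ∈ oz l w S) : ∃ d, rsd l w d x ∧ ∀ t < D, x + t • dir d ∈ oz l r S := by
  have hl : 0 < l := by omega
  have hl' : (0 : ℤ) < l := by exact_mod_cast hl
  have h' : (w : ℤ) + D ≤ r := by exact_mod_cast h
  have hr' : (r : ℤ) < l := by exact_mod_cast hr
  obtain ⟨h1, h2⟩ := mem_sdiff.1 hx
  obtain ⟨B, hB, h3⟩ := mem_biUnion.1 h1
  have h4 : x ∉ cell l B := fun h => h2 (mem_biUnion.2 ⟨B, hB, h⟩)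
  rw [k_mem_fat] at h3
  rw [k_mem_cell] at h4
  rw [k_under_par hl] at h2
  obtain ⟨⟨a1, a2⟩, a3, a4⟩ := h3
  have key : ∀ y : P, par l y = par l x → y ∈ fat l r B → y ∈ oz l r S := fun y e hy =>
    mem_sdiff.2 ⟨mem_biUnion.2 ⟨B, hB, hy⟩, by rwa [k_under_par hl, e]⟩
  have e1 : (B.1 + 1 + 1) * (l : ℤ) = (B.1 + 1) * l + l := by ring
  have e2 : (B.2 + 1 + 1) * (l : ℤ) = (B.2 + 1) * l + l := by ring
  have e3 : (B.1 - 1) * (l : ℤ) = B.1 * l - l := by ring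
  have e4 : (B.2 - 1) * (l : ℤ) = B.2 * l - l := by ring
  have e5 : (B.1 - 1 + 1) * (l : ℤ) = B.1 * l := by ring
  have e6 : (B.2 - 1 + 1) * (l : ℤ) = B.2 * l := by ring
  have e7 : (B.1 + 1) * (l : ℤ) = B.1 * l + l := by ring
  have e8 : (B.2 + 1) * (l : ℤ) = B.2 * l + l := by ring
  by_cases c0 : (B.1 + 1) * l ≤ x.1
  · refine ⟨0, ?_, fun t ht => key _ ?_ ?_⟩
    · show x.1 % l ≤ w
      rw [k_mod hl' c0 (by omega)]; omega
    · refine Prod.ext ?_ (by simp [par, dir])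
      show (x + t • dir 0).1 / l = x.1 / l
      rw [k_div hl' c0 (by omega), k_div hl' (a := B.1 + 1)] <;> simp [dir] <;> omega
    · rw [k_mem_fat]; simp [dir]; omega
  by_cases c1 : (B.2 + 1) * l ≤ x.2
  · refine ⟨1, ?_, fun t ht => key _ ?_ ?_⟩
    · show x.2 % l ≤ w
      rw [k_mod hl' c1 (by omega)]; omega
    · refine Prod.ext (by simp [par, dir]) ?_
      show (x + t • dir 1).2 / l = x.2 / l
      rw [k_div hl' c1 (by omega), k_div hl' (a := B.2 + 1)] <;> simp [dir] <;> omega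
    · rw [k_mem_fat]; simp [dir]; omega
  by_cases c2 : x.1 < B.1 * l
  · refine ⟨2, ?_, fun t ht => key _ ?_ ?_⟩
    · show (l : ℤ) - w ≤ x.1 % l
      rw [k_mod hl' (a := B.1 - 1) (by omega) (by omega)]; omega
    · refine Prod.ext ?_ (by simp [par, dir])
      show (x + t • dir 2).1 / l = x.1 / l
      rw [k_div hl' (a := B.1 - 1) (x := x.1) (by omega) (by omega),
        k_div hl' (a := B.1 - 1)] <;> simp [dir] <;> omega
    · rw [k_mem_fat]; simp [dir]; omega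
  · have c3 : x.2 < B.2 * l := by omega
    refine ⟨3, ?_, fun t ht => key _ ?_ ?_⟩
    · show (l : ℤ) - w ≤ x.2 % l
      rw [k_mod hl' (a := B.2 - 1) (by omega) (by omega)]; omega
    · refine Prod.ext (by simp [par, dir]) ?_
      show (x + t • dir 3).2 / l = x.2 / l
      rw [k_div hl' (a := B.2 - 1) (x := x.2) (by omega) (by omega),
        k_div hl' (a := B.2 - 1)] <;> simp [dir] <;> omega
    · rw [k_mem_fat]; simp [dir]; omega

theorem k_res_card {l D : ℕ} (hD : D ≤ l) (a s : ℤ) (hs : s = 1 ∨ s = -1) (T : Finset ℤ) :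
    ((range D).filter fun t : ℕ => (a + s * t) % l ∈ T).card ≤ T.card := by
  refine card_le_card_of_injOn (fun t : ℕ => (a + s * t) % l) (fun t ht => (mem_filter.1 ht).2) ?_
  intro t ht u hu e
  have h1 := mem_range.1 (mem_filter.1 (mem_coe.1 ht)).1
  have h2 := mem_range.1 (mem_filter.1 (mem_coe.1 hu)).1
  have h3 : (l : ℤ) ∣ (a + s * u) - (a + s * t) := Int.ModEq.dvd e
  have h4 : (a + s * u) - (a + s * t) = 0 := by
    refine Int.eq_zero_of_abs_lt_dvd h3 ?_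
    rcases hs with rfl | rfl <;> rw [abs_lt] <;> omega
  rcases hs with rfl | rfl <;> omega

theorem k_rsd_card {l w D : ℕ} (hl : 0 < l) (hD : D ≤ l) (d : Fin 4) (y : P) :
    ((range D).filter fun t : ℕ => rsd l w d (y - t • dir d)).card ≤ w + 1 := by
  have hl' : (0 : ℤ) < l := by exact_mod_cast hl
  have c1 : (Icc (0 : ℤ) w).card ≤ w + 1 := by simp
  have c2 : (Ico ((l : ℤ) - w) l).card ≤ w + 1 := by simp
  have p1 : ∀ x : ℤ, 0 ≤ x % l := fun x => Int.emod_nonneg _ hl'.ne'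
  have p2 : ∀ x : ℤ, x % l < l := fun x => Int.emod_lt_of_pos _ hl'
  fin_cases d
  · refine le_trans (card_le_card fun t ht => ?_) ((k_res_card hD y.1 (-1) (.inr rfl) _).trans c1)
    obtain ⟨h1, h2⟩ := mem_filter.1 ht
    refine mem_filter.2 ⟨h1, mem_Icc.2 ⟨p1 _, ?_⟩⟩
    simpa [rsd, dir, sub_eq_add_neg] using h2
  · refine le_trans (card_le_card fun t ht => ?_) ((k_res_card hD y.2 (-1) (.inr rfl) _).trans c1)
    obtain ⟨h1, h2⟩ := mem_filter.1 ht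
    refine mem_filter.2 ⟨h1, mem_Icc.2 ⟨p1 _, ?_⟩⟩
    simpa [rsd, dir, sub_eq_add_neg] using h2
  · refine le_trans (card_le_card fun t ht => ?_) ((k_res_card hD y.1 1 (.inl rfl) _).trans c2)
    obtain ⟨h1, h2⟩ := mem_filter.1 ht
    refine mem_filter.2 ⟨h1, mem_Ico.2 ⟨?_, p2 _⟩⟩
    simpa [rsd, dir, sub_eq_add_neg] using h2
  · refine le_trans (card_le_card fun t ht => ?_) ((k_res_card hD y.2 1 (.inl rfl) _).trans c2)
    obtain ⟨h1, h2⟩ := mem_filter.1 ht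
    refine mem_filter.2 ⟨h1, mem_Ico.2 ⟨?_, p2 _⟩⟩
    simpa [rsd, dir, sub_eq_add_neg] using h2

/-- the thin strip lemma for outer zones -/
theorem k_outer (f : P → ℂ) {l w D r : ℕ} (S : Finset P) (hD : 0 < D) (h : w + D ≤ r)
    (hr : r < l) : ∑ x ∈ oz l w S, ‖f x‖ ^ 2 ≤ 8 * (w + 1) / D * ∑ y ∈ oz l r S, ‖f y‖ ^ 2 +
      2 * (w + 1) * D * ∑ d, ∑ y ∈ oz l r S, ‖f (y + dir d) - f y‖ ^ 2 := by
  set Sd : Fin 4 → Finset P := fun d => (oz l w S).filter fun x =>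
    rsd l w d x ∧ ∀ t < D, x + t • dir d ∈ oz l r S with hSd
  have h1 : ∑ x ∈ oz l w S, ‖f x‖ ^ 2 ≤ ∑ d, ∑ x ∈ Sd d, ‖f x‖ ^ 2 := by
    simp only [hSd, sum_filter]
    rw [sum_comm]
    refine sum_le_sum fun x hx => ?_
    obtain ⟨d, hd⟩ := k_oz_dir h hr hx
    refine le_trans ?_ (single_le_sum (f := fun d => if rsd l w d x ∧
      ∀ t < D, x + t • dir d ∈ oz l r S then ‖f x‖ ^ 2 else 0) (fun i _ => ?_) (mem_univ d))
    · simp only [if_pos hd, le_refl]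
    · split_ifs <;> positivity
  have h2 : ∀ d, ∑ x ∈ Sd d, ‖f x‖ ^ 2 ≤ 2 * (w + 1 : ℕ) / D * ∑ y ∈ oz l r S, ‖f y‖ ^ 2 +
      2 * (w + 1 : ℕ) * D * ∑ y ∈ oz l r S, ‖f (y + dir d) - f y‖ ^ 2 := fun d =>
    k_ray f (dir d) (Sd d) _ D (w + 1) hD (fun x hx => (mem_filter.1 hx).2.2) fun y =>
      le_trans (card_le_card fun t ht => mem_filter.2
        ⟨(mem_filter.1 ht).1, (mem_filter.1 (mem_filter.1 ht).2).2.1⟩)
        (k_rsd_card (w := w) (by omega) (by omega) d y)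
  refine h1.trans ((sum_le_sum fun d _ => h2 d).trans (le_of_eq ?_))
  rw [sum_add_distrib, sum_const, card_univ, Fintype.card_fin, nsmul_eq_mul,
    ← mul_sum univ _ (2 * ((w + 1 : ℕ) : ℝ) * D)]
  push_cast
  ring

def nine : Finset P := Icc (-1 : ℤ) 1 ×ˢ Icc (-1 : ℤ) 1

theorem k_n1_nonneg (v : Fld) (x : P) : 0 ≤ n1 v x := by unfold n1; positivity
theorem k_n2_nonneg (v : Fld) (x : P) : 0 ≤ n2 v x := by unfold n2; positivity

theorem k_n2a (v : Fld) (a b : ℤ) :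
    ‖v (a + 1, b) - 2 * v (a, b) + v (a - 1, b)‖ ^ 2 ≤ n2 v (a, b) ∧
    ‖v (a, b + 1) - 2 * v (a, b) + v (a, b - 1)‖ ^ 2 ≤ n2 v (a, b) ∧
    ‖v (a + 1, b + 1) - v (a + 1, b) - v (a, b + 1) + v (a, b)‖ ^ 2 ≤ n2 v (a, b) := by
  simp only [n2, Prod.mk_add_mk, Prod.mk_sub_mk, add_zero, sub_zero]
  refine ⟨?_, ?_, ?_⟩ <;> nlinarith [sq_nonneg ‖v (a + 1, b) - 2 * v (a, b) + v (a - 1, b)‖,
    sq_nonneg ‖v (a, b + 1) - 2 * v (a, b) + v (a, b - 1)‖,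
    sq_nonneg ‖v (a + 1, b + 1) - v (a + 1, b) - v (a, b + 1) + v (a, b)‖]

theorem k_pm {x y : ℂ} {r : ℝ} (h : ‖y‖ ^ 2 ≤ r) (e : x = y ∨ x = -y) : ‖x‖ ^ 2 ≤ r := by
  rcases e with rfl | rfl
  · exact h
  · rwa [norm_neg]

theorem k_dg {α : Type} [Sub α] (v : P → α) (a b : ℤ) :
    dg v (a, b) 0 = v (a + 1, b + 1) - v (a + 1, b) ∧
    dg v (a, b) 1 = v (a, b + 1) - v (a + 1, b + 1) ∧
    dg v (a, b) 2 = v (a, b) - v (a, b + 1) ∧ dg v (a, b) 3 = v (a + 1, b) - v (a, b) := by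
  simp [dg, crn]

theorem k_dir (a b : ℤ) : (a, b) + dir 0 = (a + 1, b) ∧ (a, b) + dir 1 = (a, b + 1) ∧
    (a, b) + dir 2 = (a - 1, b) ∧ (a, b) + dir 3 = (a, b - 1) := by
  simp [dir, sub_eq_add_neg]

theorem k_dd (v : Fld) (y : P) (d e : Fin 4) :
    ∃ o ∈ nine, ‖dg v (y + dir e) d - dg v y d‖ ^ 2 ≤ n2 v (y + o) := by
  obtain ⟨a, b⟩ := y
  have A := fun i j : ℤ => (k_n2a v (a + i) (b + j)).1
  have B := fun i j : ℤ => (k_n2a v (a + i) (b + j)).2.1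
  have C := fun i j : ℤ => (k_n2a v (a + i) (b + j)).2.2
  have g0 := fun a b => (k_dg v a b).1
  have g1 := fun a b => (k_dg v a b).2.1
  have g2 := fun a b => (k_dg v a b).2.2.1
  have g3 := fun a b => (k_dg v a b).2.2.2
  obtain ⟨e0, e1, e2, e3⟩ := k_dir a b
  match d, e with
  | 0, 0 => exact ⟨(1, 0), by decide, k_pm (C 1 0) (.inl (by rw [e0, g0, g0]; ring_nf))⟩
  | 0, 1 => exact ⟨(1, 1), by decide, k_pm (B 1 1) (.inl (by rw [e1, g0, g0]; ring_nf))⟩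
  | 0, 2 => exact ⟨(0, 0), by decide, k_pm (C 0 0) (.inr (by rw [e2, g0, g0]; ring_nf))⟩
  | 0, 3 => exact ⟨(1, 0), by decide, k_pm (B 1 0) (.inr (by rw [e3, g0, g0]; ring_nf))⟩
  | 1, 0 => exact ⟨(1, 1), by decide, k_pm (A 1 1) (.inr (by rw [e0, g1, g1]; ring_nf))⟩
  | 1, 1 => exact ⟨(0, 1), by decide, k_pm (C 0 1) (.inr (by rw [e1, g1, g1]; ring_nf))⟩
  | 1, 2 => exact ⟨(0, 1), by decide, k_pm (A 0 1) (.inl (by rw [e2, g1, g1]; ring_nf))⟩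
  | 1, 3 => exact ⟨(0, 0), by decide, k_pm (C 0 0) (.inl (by rw [e3, g1, g1]; ring_nf))⟩
  | 2, 0 => exact ⟨(0, 0), by decide, k_pm (C 0 0) (.inr (by rw [e0, g2, g2]; ring_nf))⟩
  | 2, 1 => exact ⟨(0, 1), by decide, k_pm (B 0 1) (.inr (by rw [e1, g2, g2]; ring_nf))⟩
  | 2, 2 => exact ⟨(-1, 0), by decide, k_pm (C (-1) 0) (.inl (by rw [e2, g2, g2]; ring_nf))⟩
  | 2, 3 => exact ⟨(0, 0), by decide, k_pm (B 0 0) (.inl (by rw [e3, g2, g2]; ring_nf))⟩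
  | 3, 0 => exact ⟨(1, 0), by decide, k_pm (A 1 0) (.inl (by rw [e0, g3, g3]; ring_nf))⟩
  | 3, 1 => exact ⟨(0, 0), by decide, k_pm (C 0 0) (.inl (by rw [e1, g3, g3]; ring_nf))⟩
  | 3, 2 => exact ⟨(0, 0), by decide, k_pm (A 0 0) (.inr (by rw [e2, g3, g3]; ring_nf))⟩
  | 3, 3 => exact ⟨(0, -1), by decide, k_pm (C 0 (-1)) (.inr (by rw [e3, g3, g3]; ring_nf))⟩

theorem k_nine_card : nine.card = 9 := by decide

theorem k_nine_sum (g : P → ℝ) (hg : ∀ y, 0 ≤ g y) (Z W : Finset P)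
    (h : ∀ y ∈ Z, ∀ o ∈ nine, y + o ∈ W) :
    ∑ y ∈ Z, ∑ o ∈ nine, g (y + o) ≤ 9 * ∑ y ∈ W, g y := by
  rw [sum_comm]
  refine (sum_le_sum fun o ho => k_shift g hg o Z W fun y hy => h y hy o ho).trans ?_
  rw [sum_const, k_nine_card]
  simp

/-- gradient energy of a thin outer zone -/
theorem k_outer_n1 (v : Fld) {l w D r : ℕ} (S W : Finset P) (hD : 0 < D) (h : w + D ≤ r)
    (hr : r < l) (hW : ∀ y ∈ oz l r S, ∀ o ∈ nine, y + o ∈ W) :
    ∑ x ∈ oz l w S, n1 v x ≤ 8 * (w + 1) / D * ∑ y ∈ oz l r S, n1 v y +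
      144 * (w + 1) * D * ∑ y ∈ W, n2 v y := by
  have h1 := fun d => k_outer (fun x => dg v x d) S hD h hr
  have h2 : ∀ d e, ∑ y ∈ oz l r S, ‖dg v (y + dir e) d - dg v y d‖ ^ 2 ≤ 9 * ∑ y ∈ W, n2 v y := by
    intro d e
    refine le_trans (sum_le_sum fun y _ => ?_) (k_nine_sum _ (k_n2_nonneg v) _ W hW)
    obtain ⟨o, ho, h⟩ := k_dd v y d e
    exact h.trans (single_le_sum (f := fun o => n2 v (y + o)) (fun _ _ => k_n2_nonneg _ _) ho)
  have h3 : ∀ d, ∑ e, ∑ y ∈ oz l r S, ‖dg v (y + dir e) d - dg v y d‖ ^ 2 ≤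
      36 * ∑ y ∈ W, n2 v y := fun d => by
    refine (sum_le_sum fun e _ => h2 d e).trans (le_of_eq ?_)
    simp; ring
  have h4 : (0 : ℝ) ≤ 2 * (w + 1) * D := by positivity
  have h5 := fun d => (h1 d).trans (add_le_add_right (mul_le_mul_of_nonneg_left (h3 d) h4) _)
  have h6 : ∀ Z : Finset P, ∑ x ∈ Z, n1 v x = 1 / 2 * ∑ d, ∑ x ∈ Z, ‖dg v x d‖ ^ 2 := fun Z => by
    rw [sum_comm, mul_sum]; rfl
  rw [h6, h6]
  have h7 := sum_le_sum fun d (_ : d ∈ univ) => h5 d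
  rw [sum_add_distrib, sum_const, card_univ, Fintype.card_fin, nsmul_eq_mul, ← mul_sum] at h7
  push_cast at h7
  linarith

theorem k_edge (v : Fld) (y : P) (e : Fin 4) :
    ∃ o ∈ nine, ‖v (y + dir e) - v y‖ ^ 2 ≤ 2 * n1 v (y + o) := by
  have h : ∀ x d, ‖dg v x d‖ ^ 2 ≤ 2 * n1 v x := fun x d => by
    have := single_le_sum (f := fun d => ‖dg v x d‖ ^ 2) (fun _ _ => by positivity) (mem_univ d)
    unfold n1; linarith
  obtain ⟨a, b⟩ := y
  obtain ⟨e0, e1, e2, e3⟩ := k_dir a b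
  have g2 := fun a b => (k_dg v a b).2.2.1
  have g3 := fun a b => (k_dg v a b).2.2.2
  match e with
  | 0 => exact ⟨(0, 0), by decide, k_pm (h (a + 0, b + 0) 3) (.inl (by rw [e0, g3]; ring_nf))⟩
  | 1 => exact ⟨(0, 0), by decide, k_pm (h (a + 0, b + 0) 2) (.inr (by rw [e1, g2]; ring_nf))⟩
  | 2 => exact ⟨(-1, 0), by decide, k_pm (h (a + -1, b + 0) 3) (.inr (by rw [e2, g3]; ring_nf))⟩
  | 3 => exact ⟨(0, -1), by decide, k_pm (h (a + 0, b + -1) 2) (.inl (by rw [e3, g2]; ring_nf))⟩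

/-- values on a thin outer zone, shifted by `c` -/
theorem k_outer_val (v : Fld) {l w D r : ℕ} (S W : Finset P) (c : P) (hD : 0 < D)
    (h : w + D ≤ r) (hr : r < l) (hW : ∀ y ∈ oz l r S, ∀ o ∈ nine, y + c + o ∈ W) :
    ∑ x ∈ oz l w S, ‖v (x + c)‖ ^ 2 ≤ 8 * (w + 1) / D * ∑ y ∈ W, ‖v y‖ ^ 2 +
      144 * (w + 1) * D * ∑ y ∈ W, n1 v y := by
  have h1 := k_outer (fun x => v (x + c)) S hD h hr
  have h0 : ∑ y ∈ oz l r S, ‖v (y + c)‖ ^ 2 ≤ ∑ y ∈ W, ‖v y‖ ^ 2 :=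
    k_shift (fun y => ‖v y‖ ^ 2) (fun _ => by positivity) c _ _ fun y hy => by
      simpa using hW y hy 0 (by decide)
  have h2 : ∀ e, ∑ y ∈ oz l r S, ‖v (y + dir e + c) - v (y + c)‖ ^ 2 ≤ 18 * ∑ y ∈ W, n1 v y := by
    intro e
    have := k_nine_sum (fun y => n1 v (y + c)) (fun _ => k_n1_nonneg _ _) (oz l r S)
      (W.image (· - c)) fun y hy o ho => mem_image.2 ⟨_, hW y hy o ho, by abel⟩
    rw [sum_image fun a _ b _ h => sub_left_injective h] at this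
    simp only [sub_add_cancel] at this
    have h3 : ∑ y ∈ oz l r S, ‖v (y + dir e + c) - v (y + c)‖ ^ 2 ≤
        ∑ y ∈ oz l r S, 2 * ∑ o ∈ nine, n1 v (y + o + c) := by
      refine sum_le_sum fun y _ => ?_
      obtain ⟨o, ho, h⟩ := k_edge v (y + c) e
      have := single_le_sum (f := fun o => n1 v (y + o + c)) (fun _ _ => k_n1_nonneg _ _) ho
      rw [add_right_comm y (dir e)]
      rw [add_right_comm y c o] at h
      linarith
    rw [← mul_sum] at h3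
    linarith
  have h3 : ∑ e, ∑ y ∈ oz l r S, ‖v (y + dir e + c) - v (y + c)‖ ^ 2 ≤ 72 * ∑ y ∈ W, n1 v y := by
    refine (sum_le_sum fun e _ => h2 e).trans (le_of_eq ?_)
    simp; ring
  have h4 := mul_le_mul_of_nonneg_left h3 (show (0 : ℝ) ≤ 2 * (w + 1) * D by positivity)
  have h5 := mul_le_mul_of_nonneg_left h0 (show (0 : ℝ) ≤ 8 * (w + 1) / D by positivity)
  linarith

end Pool.Agent.Lib.MP_9cc147_pr.Cx
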