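import Pool.Agent.Lib.MP_9cc147_pr.Cx.K.Ee
import Pool.Agent.Lib.MP_9cc147_pr.Cx.Rg.Env
import Pool.Agent.Lib.MP_9cc147_pr.Cx.Rg.G
import Pool.Agent.Lib.MP_9cc147_pr.Cx.Rg.Fb
import Pool.Agent.Lib.MP_9cc147_pr.Cx.Rg.Sch
import Pool.Agent.Lib.MP_9cc147_pr.Cx.Rg.Str
import Pool.Agent.Lib.MP_9cc147_pr.Cx.Rg.Qz
import Pool.Agent.Lib.MP_9cc147_pr.Cx.T.Hol

/-! The bounds on the extracted constants. -/

namespace Pool.Agent.Lib.MP_9cc147_pr.Cx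

theorem t_ee (h_u : S_u) (h_cnt : S_cnt) (h_zel : S_zel) (h_zmom : S_zmom) : S_ee :=
  have hd : S_rg_dif := t_rg_dif (t_rg_g h_zel t_T_hol) t_rg_sm t_rg_str
  k_ee (t_rg_env h_u h_zmom h_cnt)
    (t_rg_sz hd (t_rg_fb t_rg_sch t_rg_sm) (t_rg_qz h_zel)) hd (t_rg_qz h_zel)

end Pool.Agent.Lib.MP_9cc147_pr.Cx
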