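import Pool.Agent.Lib.MP_9cc147_pr.Cx.Rg.Kit

/-! The terms of one step that contain a polymer of the second class. -/

open scoped Classical Topology
open Finset MeasureTheory ProbabilityTheory Filter

noncomputable section
namespace Pool.Agent.Lib.MP_9cc147_pr.Cx

theorem k1_prod (m : ℕ) (X : Finset P) (ρ : ℝ) :
    ∏ B ∈ X, (if corner m B then ρ else 1) = ρ ^ ncor m X := by
  rw [prod_ite, prod_const, prod_const_one, mul_one, ncor]

theorem k1_ncor4 (m : ℕ) (X : Finset P) : ncor m X ≤ 4 := by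
  have : X.filter (corner m) ⊆ ({0, (m : ℤ) - 1} : Finset ℤ) ×ˢ ({0, (m : ℤ) - 1} : Finset ℤ) := by
    intro B hB
    simpa [corner] using (mem_filter.1 hB).2
  refine (card_le_card this).trans ?_
  rw [card_product]
  exact Nat.mul_le_mul (card_le_two) (card_le_two)

theorem k1_ncor {L m : ℕ} (hL : 1 ≤ L) (hm : 2 ≤ m) (U : Finset P) :
    ncor (L * m) (under L U) ≤ ncor m U := by
  have hL' : (1 : ℤ) ≤ L := by exact_mod_cast hL
  have hm' : (2 : ℤ) ≤ m := by exact_mod_cast hm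
  have e : ((L * m : ℕ) - 1 : ℤ) / L = m - 1 := by
    rw [f_div_iff hL]; push_cast; constructor <;> nlinarith
  have k : ∀ x : ℤ, (x = 0 ∨ x = (L * m : ℕ) - 1) → (x = 0 ∧ x / L = 0) ∨
      (x = (L * m : ℕ) - 1 ∧ x / L = m - 1) := by
    rintro x (rfl | rfl)
    · simp
    · exact Or.inr ⟨rfl, e⟩
  refine card_le_card_of_injOn (par L) (fun B hB => ?_) fun B hB B' hB' h => ?_
  · obtain ⟨h1, h2, h3⟩ := mem_filter.1 (mem_coe.1 hB)
    refine mem_coe.2 (mem_filter.2 ⟨(f_mem_under hL).1 h1, ?_, ?_⟩)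
    · exact (k _ h2).imp And.right And.right
    · exact (k _ h3).imp And.right And.right
  · obtain ⟨-, h2, h3⟩ := mem_filter.1 (mem_coe.1 hB)
    obtain ⟨-, h4, h5⟩ := mem_filter.1 (mem_coe.1 hB')
    simp only [par, Prod.mk.injEq] at h
    have a := k _ h2; have b := k _ h3; have c := k _ h4; have d := k _ h5
    ext <;> omega

theorem k1_dead {L s0 : ℕ} {D U : Finset P} {c : P → Sf} (h : ¬ live s0 (reg L D U) c)
    (T M : Lab → P → ℂ) (K : Lab → Finset P → ℂ) (N : Finset P → (P → Option Lab) → ℂ) :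
    lw L s0 D U T M K N c = 0 := by
  simp only [live, not_forall, not_not] at h
  obtain ⟨X, hX, h0⟩ := h
  obtain ⟨s, -, hs⟩ := mem_biUnion.1 hX
  unfold lw
  have e : ∏ s, ∏ X ∈ comps (pol (reg L D U) (red c) s), fw s0 c X * K s X = 0 :=
    prod_eq_zero (mem_univ s) (prod_eq_zero hs (by rw [h0, zero_mul]))
  rw [e, mul_zero, zero_mul]

theorem k1_card {L : ℕ} (hL : 1 ≤ L) (U : Finset P) : (under L U).card = L ^ 2 * U.card := by
  rw [card_eq_sum_ones, f_sum_under hL]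
  simp [f_card_cell, mul_comm]

theorem k1_exp {z : ℂ} {a : ℝ} (h : ‖z‖ ≤ a) : ‖Complex.exp z‖ ≤ Real.exp a := by
  rw [Complex.norm_exp]
  exact Real.exp_le_exp.2 ((Complex.re_le_norm z).trans h)

namespace Par
variable {q : Par} {Cu C0 ε0 t0 α ν ρ : ℝ} {j : ℕ} {x : State} {b : ℕ × ℕ} {z : ℂ}

theorem k1_small (E : q.Env Cu C0 ε0) : 10 ^ 4 * (q.ε * q.H Cu * q.L ^ 2) ≤ 1 := by
  have h1 := E.g_ge
  have h2 := E.eps_g8
  have g1 : 1 ≤ q.g Cu := le_trans (by norm_num) E.g8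
  have h3 : q.g Cu ≤ q.g Cu ^ 8 := le_self_pow₀ g1 (by norm_num)
  have h4 : q.ε * (c0 * q.L ^ 2 * q.H Cu) ≤ q.ε * q.g Cu ^ 8 :=
    mul_le_mul_of_nonneg_left (h1.trans h3) E.hε.1.le
  have h5 : 0 ≤ q.ε * q.H Cu * q.L ^ 2 := by have := E.H1; have := E.hε.1; positivity
  rw [c0] at h4
  nlinarith

theorem k1_d (G : q.Good t0 j x α ν ρ) (hb : ok b j) (hz : ‖z‖ ≤ t0) (s : Lab) {B : P}
    (hB : B ∈ box (q.m b j)) : Real.exp |((x.a b z).d s B).re| ≤
      (if corner (q.m b j) B then ρ else 1) * Real.exp q.ε := by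
  have h := G.bnd.d b z s B hb hz hB
  have e0 : 0 ≤ q.ε := G.a.1.trans G.a.2
  split_ifs at h ⊢
  · exact h.trans (le_mul_of_one_le_right (by linarith [G.n.2.1]) (Real.one_le_exp e0))
  · rw [one_mul]; exact Real.exp_le_exp.2 ((Complex.abs_re_le_norm _).trans h)

theorem k1_dd (h_sz : S_rg_sz) (E : q.Env Cu C0 ε0) (G : q.Good t0 j x α ν ρ) (hb : ok b (j + 1))
    (hz : ‖z‖ ≤ t0) (s : Lab) {B : P} (hB : B ∈ box (q.m b (j + 1))) :
    if corner (q.m b (j + 1)) B then Real.exp |(q.d' j x b z s B).re| ≤ ρ * (21 / 20)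
    else ‖q.d' j x b z s B‖ ≤ q.ε := by
  have e0 := E.hε.1
  unfold d'
  split_ifs with hc
  swap
  · rw [Complex.norm_real, Real.norm_eq_abs, clamp, abs_le]
    exact ⟨le_max_left _ _, max_le (by linarith) (min_le_left _ _)⟩
  have sz := fun s => ((h_sz q Cu C0 ε0 t0 j x x α ν ρ ν ρ s 0 E G G le_rfl
    (Dif.refl E.Apos.le le_rfl)).2.2 b z {B} hb hz).1
  have hs : cell q.L B ⊆ box (q.m b j) := by
    rw [q.m_succ hb.pred.2.1]; exact f_cell_sub E.L1 hB
  have H0 : 0 ≤ q.H Cu := zero_le_one.trans E.H1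
  have he : ∀ s, ∀ B' ∈ cell q.L B, ‖q.et j x b z s B'‖ ≤ 4 * q.ε * q.H Cu := by
    intro s B' hB'
    obtain ⟨a1, a2⟩ := (sz s).e B' (mem_filter.2 ⟨hs hB', B', by rwa [rg_under_one],
      by simp [nr]⟩)
    have : α * q.H Cu ≤ q.ε * q.H Cu := mul_le_mul_of_nonneg_right G.a.2 H0
    refine (norm_add_le _ _).trans ?_
    simp only [dat] at a1 a2
    linarith
  have h1 : |(q.D' j x b z s B).re| ≤
      ∑ B' ∈ cell q.L B, (|((x.a b z).d s B').re| + 8 * q.ε * q.H Cu) := by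
    unfold D'
    rw [Complex.re_sum]
    refine (abs_sum_le_sum_abs _ _).trans (sum_le_sum fun B' hB' => ?_)
    have a1 := (Complex.abs_re_le_norm _).trans (he s B' hB')
    have a2 := (Complex.abs_re_le_norm _).trans (he 0 B' hB')
    simp only [Complex.sub_re, Complex.add_re]
    rw [abs_le] at a1 a2 ⊢
    constructor <;> linarith [le_abs_self ((x.a b z).d s B').re, neg_abs_le ((x.a b z).d s B').re]
  refine (Real.exp_le_exp.2 h1).trans ?_
  rw [Real.exp_sum]
  refine (prod_le_prod (g := fun B' => (if corner (q.m b j) B' then ρ else 1) *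
    Real.exp (9 * q.ε * q.H Cu)) (fun _ _ => (Real.exp_pos _).le) fun B' hB' => ?_).trans ?_
  · rw [Real.exp_add]
    refine (mul_le_mul_of_nonneg_right (k1_d G hb.pred hz s (hs hB')) (Real.exp_pos _).le).trans ?_
    rw [mul_assoc, ← Real.exp_add]
    refine mul_le_mul_of_nonneg_left (Real.exp_le_exp.2 ?_) (by split_ifs <;> linarith [G.n.2.1])
    nlinarith [E.H1]
  · rw [prod_mul_distrib, k1_prod, prod_const, f_card_cell, ← Real.exp_nat_mul]
    have c1 : ncor (q.m b j) (cell q.L B) ≤ 1 := by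
      rw [q.m_succ hb.pred.2.1, ← rg_under_one]
      refine (k1_ncor E.L1 (le_trans (by have := E.L1000; omega) (q.L_le_m E.L1 hb)) _).trans ?_
      exact (card_filter_le _ _).trans (by simp)
    have c2 : ρ ^ ncor (q.m b j) (cell q.L B) ≤ ρ ^ 1 := pow_le_pow_right₀ G.n.2.1 c1
    rw [pow_one] at c2
    refine mul_le_mul c2 ?_ (Real.exp_pos _).le (by linarith [G.n.2.1])
    have sm := k1_small E
    have : Real.exp (1 / 21) ≤ 21 / 20 :=
      (Real.exp_bound_div_one_sub_of_interval (by norm_num) (by norm_num)).trans (by norm_num)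
    refine le_trans (Real.exp_le_exp.2 ?_) this
    push_cast
    nlinarith

theorem k1_core (h_zel : S_zel) (h_lw : S_rg_lw) (h_y : S_rg_y) (h_blo : S_rg_blo)
    (h_sz : S_rg_sz) (h_str : S_rg_str) (E : q.Env Cu C0 ε0) (G : q.Good t0 j x α ν ρ)
    (hz : ‖z‖ ≤ t0) {U : Finset P} {θ : P → ℝ} {v : Fld} (pt : q.Pt b j z U θ v)
    (σ : P → Option Lab) :
    ‖rb1 PP q.L 4 (box (q.m b (j + 1))) (q.inp j x b z (bg (q.n b) z + cf θ + v)) U σ‖ ≤
      ρ ^ ncor (q.m b (j + 1)) U * 4 ^ U.card * Real.exp (q.κ * Reg (q.l (j + 1)) U θ) *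
        ((if Nn (box (q.m b (j + 1))) U σ then ν / 1000 else C0 * ν) * (16 * q.A)⁻¹ ^ U.card) := by
  have hb := pt.hok
  have e0 := E.hε.1
  have H0 : 0 ≤ q.H Cu := zero_le_one.trans E.H1
  have ρ1 := G.n.2.1
  have α0 := G.a.1
  have ν0 := G.n.1
  have g0 := E.gpos
  have sz := fun s => ((h_sz q Cu C0 ε0 t0 j x x α ν ρ ν ρ s 0 E G G le_rfl
    (Dif.refl E.Apos.le le_rfl)).2.2 b z U hb hz).1
  have blo := fun s => h_blo q Cu C0 ε0 b j z U θ v _ _ _ E pt (sz s)
    (E.small (by linarith [G.a.2]))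
  obtain ⟨y1, y2⟩ := h_y q Cu C0 ε0 b j E hb
  have hn : 1 ≤ q.n b := by
    rw [q.n_eq (j := 0) (by omega)]
    exact Nat.mul_pos (by have := E.l100 0; omega)
      (lt_of_lt_of_le E.L1 (q.L_le_m E.L1 (hb.le (Nat.zero_le _))))
  set Θ := bg (q.n b) z + cf θ + v with hΘ
  set D := box (q.m b (j + 1)) with hD
  set R := reg q.L D U with hR
  have RB : R ⊆ box (q.m b j) := by
    intro B hB
    rw [m_succ q hb.pred.2.1, ← f_par_box E.L1]
    exact f_near_sub _ _ _ ((f_mem_under E.L1).1 hB)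
  have nb' : near 4 R (under q.L U) ⊆ near 4 (box (q.m b j)) (under q.L U) :=
    filter_subset_filter _ RB
  have un : ∀ B ∈ under q.L U, B ∈ near 4 (box (q.m b j)) (under q.L U) := fun B hB =>
    mem_filter.2 ⟨pt.under_sub E hB, B, hB, by simp [nr]⟩
  have αH : α * q.H Cu ≤ q.ε * q.H Cu := mul_le_mul_of_nonneg_right G.a.2 H0
  have κg : 32 * α ≤ q.κ := by
    have a1 := E.small (D := 32 * α) (by linarith [G.a.2])
    have a2 : 1 ≤ q.g Cu * q.κ := by
      have := one_le_mul_of_one_le_of_one_le (one_le_pow₀ (n := 2) E.L1') E.H1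
      rw [g, div_mul_cancel₀ _ E.hκ.1.ne', c0]; nlinarith
    have a3 : 1 ≤ q.g Cu := le_trans (by norm_num) E.g8
    refine a1.trans ?_
    rw [div_le_iff₀ (by positivity)]; nlinarith [E.hκ.1]
  set W := ρ ^ ncor (q.m b (j + 1)) U * 4 ^ U.card * Real.exp (q.κ * Reg (q.l (j + 1)) U θ)
  have W0 : 0 ≤ W := by positivity
  have key : ∀ ω, ∀ c ∈ (loc1 q.L 4 D U σ).filter (live 4 R),
      ‖Complex.exp (∑ B ∈ under q.L U, (q.inp j x b z Θ).et 0 B) *
        lw q.L 4 D U (fun s B => Complex.exp (-(q.inp j x b z Θ).d s B) * (q.inp j x b z Θ).It s B)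
          ((q.inp j x b z Θ).M ω) ((q.inp j x b z Θ).K ω) ((q.inp j x b z Θ).N ω) c‖ ≤
      W * aw R (q.g Cu * (2 * α)) α ν q.A c * q.Yc b j (Sc R c) ω := by
    intro ω c hc
    obtain ⟨hc1, hc2⟩ := mem_filter.1 hc
    have dz := ((h_zel.2 q.L (q.n b) j (by have := E.L1000; omega) hn).1 ω).1
    have hI : ∀ s B, q.It j x b z Θ s B = Complex.exp (-(q.dat j x b z s).e B -
        (q.dat j x b z s).lam' / 2 * q.Qz b j z B Θ) := by
      intro s B
      simp only [It, Ih, dat, ← Complex.exp_add]; congr 1; ring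
    have hM : ∀ s B, (q.inp j x b z Θ).M ω s B =
        Complex.exp (q.dm b j z Θ (q.dat j x b z s) ω B) - 1 := by
      intro s B
      simp only [inp, hI, Ih, dm, dat, ← Complex.exp_sub]; congr 2; ring
    have L := h_lw q.L (q.l j) D U q.κ q.A (q.g Cu * (2 * α)) α ν (8 * q.ε * q.H Cu) θ
      (zeta q.L (q.n b) j ω) (q.et j x b z 0)
      (fun B => (if corner (q.m b j) B then ρ else 1) * Real.exp (5 * q.ε * q.H Cu))
      (fun B => if corner (q.m b j) B then ρ else 1)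
      (fun s B => Complex.exp (-(x.a b z).d s B)) (q.It j x b z Θ) ((q.inp j x b z Θ).M ω)
      (fun s X => (x.a b z).K s X (Θ + cf (zeta q.L (q.n b) j ω))) ((q.inp j x b z Θ).N ω) c
      E.Lc2 (E.l100 j) pt.pm.1 pt.pm.2.1 E.hκ.1.le E.Apos (by positivity) α0 ν0 (by positivity)
      (mem_filter.1 hc1).1 hc2 ?_ ?_ ?_ ?_ ?_
    · refine L.trans ?_
      rw [← q.l_succ]
      refine mul_le_mul_of_nonneg_right ?_ (Real.exp_pos _).le
      have aw0 : 0 ≤ aw R (q.g Cu * (2 * α)) α ν q.A c := by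
        have := E.Apos
        unfold aw; positivity
      rw [mul_right_comm _ (aw _ _ _ _ _ _)]
      refine mul_le_mul_of_nonneg_right (mul_le_mul_of_nonneg_right ?_ (Real.exp_pos _).le) aw0
      rw [prod_mul_distrib, k1_prod, prod_const, k1_card E.L1, ← Real.exp_nat_mul, mul_assoc,
        ← Real.exp_add]
      refine mul_le_mul (pow_le_pow_right₀ ρ1 ?_) ?_ (Real.exp_pos _).le (by positivity)
      · rw [q.m_succ hb.pred.2.1]
        exact k1_ncor E.L1 (le_trans (by have := E.L1000; omega) (q.L_le_m E.L1 hb)) _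
      · have sm := k1_small E
        calc _ ≤ Real.exp (U.card * 1) := Real.exp_le_exp.2 (by
              push_cast; nlinarith [(Nat.cast_nonneg U.card : (0 : ℝ) ≤ U.card)])
          _ = Real.exp 1 ^ U.card := Real.exp_nat_mul _ _
          _ ≤ _ := pow_le_pow_left₀ (Real.exp_pos _).le
              (Real.exp_one_lt_d9.le.trans (by norm_num)) _
    · intro B hB
      have r1 : (1 : ℝ) ≤ if corner (q.m b j) B then ρ else 1 := by split_ifs <;> linarith
      obtain ⟨a1, a2⟩ := (sz 0).e B (un B hB)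
      have a3 : ‖Complex.exp (q.et j x b z 0 B)‖ ≤ Real.exp (4 * q.ε * q.H Cu) := by
        refine k1_exp ((norm_add_le _ _).trans ?_)
        simp only [dat] at a1 a2
        linarith
      refine ⟨r1, ?_, fun s => ?_⟩
      · rw [mul_comm]
        exact mul_le_mul_of_nonneg_left (a3.trans (Real.exp_le_exp.2 (by nlinarith))) (by linarith)
      · rw [norm_mul, mul_comm]
        have a4 : ‖Complex.exp (-(x.a b z).d s B)‖ ≤ _ := le_trans (by
          rw [Complex.norm_exp, Complex.neg_re]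
          exact Real.exp_le_exp.2 (neg_le_abs _)) (k1_d G hb.pred hz s (pt.under_sub E hB))
        refine (mul_le_mul a4 a3 (norm_nonneg _) (by positivity)).trans ?_
        rw [mul_assoc, ← Real.exp_add]
        exact mul_le_mul_of_nonneg_left (Real.exp_le_exp.2 (by nlinarith [E.H1])) (by linarith)
    · intro s B hB
      have a := ((blo s).1 B (nb' hB)).1
      have ea0 : 0 ≤ ea (q.l j) (cf θ) B := sum_nonneg fun _ _ => by unfold n1; positivity
      have a' := a.trans (show _ ≤ q.κ / 8 * ea (q.l j) (cf θ) B + 8 * q.ε * q.H Cu by nlinarith)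
      rw [hI]
      refine ⟨Complex.exp_ne_zero _, k1_exp a', ?_⟩
      rw [← Complex.exp_neg]
      exact k1_exp (by rwa [norm_neg])
    · intro s B hB
      rw [hM]
      exact (((blo s).1 B (un B hB)).2 ω).2
    · intro s X hX hs
      exact ((blo s).2.2 X ⟨fun B hB => f_near_sub _ _ _ (nb' (hs hB)), hX⟩ (hs.trans nb')).2 ω
    · intro X σ' hX hs
      have st := ((h_str (q.n b) q.L (q.l j) q.h (q.L * q.h) v E.L1000 (E.l100 j)).1 U X
        (by rw [← q.l_succ]; exact pt.str) fun B hB => ⟨B, hs hB, by simp [nr]⟩).1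
      have a := G.bnd.N b z X σ' hb.pred hz ⟨hs.trans (pt.under_sub E), hX⟩ _
        (f_dir_add pt.dir dz) v st
      rw [f_cf_add] at a
      rw [k1_prod]
      have e : Θ + cf (zeta q.L (q.n b) j ω) =
          bg (q.n b) z + (cf θ + cf (zeta q.L (q.n b) j ω)) + v := by rw [hΘ]; ring
      simp only [inp]
      rw [e]
      exact a.trans_eq (by ring)
  unfold rb1
  rw [← integral_const_mul]
  have hi : ∀ c, Integrable (fun ω => W * aw R (q.g Cu * (2 * α)) α ν q.A c *
      q.Yc b j (Sc R c) ω) PP := fun c => (y1 _ (y2 U c 0 0 0 le_rfl le_rfl le_rfl).1).1.const_mul _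
  refine (norm_integral_le_of_norm_le (integrable_finsetSum
    ((loc1 q.L 4 D U σ).filter (live 4 R)) fun c _ => hi c) (.of_forall fun ω => ?_)).trans ?_
  · unfold L1
    rw [← sum_filter_of_ne (p := live 4 R) fun c _ h => by
      by_contra h'; exact h (k1_dead h' _ _ _ _), mul_sum]
    exact (norm_sum_le _ _).trans (sum_le_sum (key ω))
  rw [integral_finsetSum _ fun c _ => hi c]
  have sm : ∀ k : ℝ, 0 ≤ k → k ≤ 4 * q.g Cu → k * q.ε ≤ ε0 := by
    intro k k0 hk
    have a1 := E.hC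
    have a2 := E.hε.2
    have a3 := E.g_le
    have g1 : 10 ^ 8 ≤ q.g Cu := E.g8
    set t := q.g Cu * q.A * C0 / ε0
    have a4 : q.g Cu ≤ t * ε0 := by
      rw [div_mul_cancel₀ _ E.hC0.2.1.ne', mul_assoc]
      exact le_mul_of_one_le_right g0.le (one_le_mul_of_one_le_of_one_le E.A1 E.hC0.1)
    have a5 : t ^ 2 ≤ t ^ 8 := pow_le_pow_right₀ (by linarith) (by norm_num)
    have a6 : 4 * t * q.ε ≤ 1 := by nlinarith
    have := E.hC0.2.1
    nlinarith
  have g1 : 1 ≤ q.g Cu := le_trans (by norm_num) E.g8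
  have s1 := sm 1 zero_le_one (by linarith)
  have νε : ν ≤ q.ε := le_trans (le_mul_of_one_le_right ν0 (one_le_pow₀ ρ1)) G.n.2.2
  have cn := (E.cn _ U (2 * (q.g Cu * (2 * α))) α ν (q.L_le_m E.L1 hb) pt.pm (by positivity) α0 ν0
    (le_trans (by nlinarith [G.a.2]) (sm _ (by positivity) le_rfl)) (by linarith [G.a.2])
    (by linarith)).2.2 σ
  refine le_trans ?_ (mul_le_mul_of_nonneg_left cn W0)
  rw [mul_sum]
  refine sum_le_sum fun c _ => ?_
  obtain ⟨z1, z2⟩ := y2 U c (q.g Cu * (2 * α)) α ν (by positivity) α0 ν0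
  rw [integral_const_mul, mul_assoc]
  refine mul_le_mul_of_nonneg_left (le_trans (mul_le_mul_of_nonneg_left (y1 _ z1).2 ?_) z2) W0
  have := E.Apos
  unfold aw; positivity

end Par

theorem t_k1 (h_zel : S_zel) (h_env : S_rg_env) (h_lw : S_rg_lw) (h_y : S_rg_y)
    (h_blo : S_rg_blo) (h_sz : S_rg_sz) (h_str : S_rg_str) : S_k1 := by
  filter_upwards [h_env] with q ⟨Cu, C0, ε0, E⟩ t0 j x α ν ρ G b z hb hz
  have dd := fun s B hB => Par.k1_dd (B := B) h_sz E G hb hz s hB
  have A0 := E.Apos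
  have ρ1 := G.n.2.1
  have ν0 := G.n.1
  refine ⟨dd, fun U hU => ⟨fun σ θ hθ v hv => ?_, fun s θ hθ v hv => ?_⟩⟩
  · have c := Par.k1_core h_zel h_lw h_y h_blo h_sz h_str E G hz
      ⟨hb, hU, hz.trans G.t.2, hθ, hv⟩ σ
    simp only [Par.step, rbN]
    split_ifs at c ⊢
    · refine c.trans ?_
      rw [mul_right_comm]
      refine mul_le_mul_of_nonneg_right ?_ (Real.exp_pos _).le
      have : (4 : ℝ) ^ U.card * (16 * q.A)⁻¹ ^ U.card ≤ q.A⁻¹ ^ U.card := by
        rw [← mul_pow]; gcongr; rw [mul_inv]; have := inv_pos.2 A0; linarith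
      calc _ = ν / 1000 * ρ ^ ncor (q.m b (j + 1)) U * (4 ^ U.card * (16 * q.A)⁻¹ ^ U.card) := by
            ring
        _ ≤ _ := by gcongr; norm_num
    · rw [norm_zero]; positivity
  · have c := Par.k1_core h_zel h_lw h_y h_blo h_sz h_str E G hz
      ⟨hb, hU, hz.trans G.t.2, hθ, hv⟩ (cst (box (q.m b (j + 1))) U s)
    have C0C : C0 ≤ q.C := by
      have a1 := E.hC
      have a3 := E.g_le
      have g1 : 1 ≤ q.g Cu := le_trans (by norm_num) E.g8
      have a4 : C0 ≤ q.g Cu * q.A * C0 / ε0 := by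
        rw [le_div_iff₀ E.hC0.2.1]
        have := one_le_mul_of_one_le_of_one_le g1 E.A1
        nlinarith [E.hC0.1, E.hC0.2.2]
      exact a4.trans ((le_self_pow₀ (by linarith) (by norm_num)).trans a1)
    have C0' := E.Cpos
    simp only [Par.step, rbK, Par.K0, add_sub_cancel_left]
    split_ifs
    swap
    · rw [norm_zero]; positivity
    have h1 : ‖Complex.exp (∑ B ∈ U, (q.inp j x b z (bg (q.n b) z + cf θ + v)).d' s B)‖ ≤
        ρ ^ ncor (q.m b (j + 1)) U * 3 ^ U.card := by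
      rw [Complex.exp_sum, norm_prod, ← k1_prod, ← prod_const, ← prod_mul_distrib]
      refine prod_le_prod (fun _ _ => norm_nonneg _) fun B hB => ?_
      have d := dd s B (hU.1 hB)
      simp only [Par.inp]
      split_ifs at d ⊢
      · rw [Complex.norm_exp]
        exact (Real.exp_le_exp.2 (le_abs_self _)).trans (d.trans (by linarith))
      · refine (k1_exp d).trans ((Real.exp_le_exp.2 (show q.ε ≤ 1 by
          nlinarith [E.hε.1, E.hε.2, E.Cbig])).trans ?_)
        exact Real.exp_one_lt_d9.le.trans (by norm_num)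
    have h2 : (if Nn (box (q.m b (j + 1))) U (cst (box (q.m b (j + 1))) U s) then ν / 1000
        else C0 * ν) ≤ q.C * ν := by
      split_ifs
      · nlinarith [E.Cbig]
      · gcongr
    have h3 : ρ ^ ncor (q.m b (j + 1)) U ≤ ρ ^ 4 := pow_le_pow_right₀ ρ1 (k1_ncor4 _ _)
    have h4 : (3 : ℝ) ^ U.card * 4 ^ U.card * (16 * q.A)⁻¹ ^ U.card ≤ q.A⁻¹ ^ U.card := by
      rw [← mul_pow, ← mul_pow]; gcongr; rw [mul_inv]; have := inv_pos.2 A0; linarith
    rw [norm_mul]
    refine (mul_le_mul h1 (c.trans (mul_le_mul_of_nonneg_left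
      (mul_le_mul_of_nonneg_right h2 (by positivity)) (by positivity))) (norm_nonneg _)
      (by positivity)).trans ?_
    calc _ = q.C * ν * (ρ ^ ncor (q.m b (j + 1)) U * ρ ^ ncor (q.m b (j + 1)) U) *
          (3 ^ U.card * 4 ^ U.card * (16 * q.A)⁻¹ ^ U.card) *
          Real.exp (q.κ * Reg (q.l (j + 1)) U θ) := by ring
      _ ≤ q.C * ν * (ρ ^ 4 * ρ ^ 4) * q.A⁻¹ ^ U.card * Real.exp (q.κ * Reg (q.l (j + 1)) U θ) := by
          gcongr
      _ = _ := by ring

end Pool.Agent.Lib.MP_9cc147_pr.Cx
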